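import Pool.Agent.R903.PermMain

/-!
# Bloch's conjecture for surfaces with `p_g = q = 0` and permutations

Let `X` be a variety of a class `𝒱` of smooth projective varieties over a field which is closed
under products, with Chow groups `C` (rational coefficients) and a Weil cohomology theory `W`, and
suppose that the cohomology of `X` is spanned by classes of algebraic cycles; let `b` be its
dimension. The complex surfaces with this property are those with `p_g = q = 0`.

For a permutation `σ` of `m` letters let `G_σ` be the class `∏ p_{i, σ(i)}^* Δ` on `X^m × X^m`,
where `p_{i, j}` is the projection to the product of the `i`-th factor of the first `X^m` and the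
`j`-th factor of the second `X^m`; it is the class of the graph of the permutation `σ` of the
factors of `X^m`.

Theorem. The following are equivalent:

* the cycle class map is injective on the Chow groups of `X × X` (for complex surfaces with
  `p_g = q = 0` this is Bloch's conjecture for `X`, by Bloch and Srinivas);
* the alternating sum of the classes `G_σ`, `σ ∈ S_m`, vanishes for `m = b + 1`;
* for some `m ≤ 2 b + 3` the `m!` classes `G_σ` are linearly dependent in the Chow group of
  `X^m × X^m`;
* for each idempotent correspondence `e` of degree zero which acts as zero on the cohomology, the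
  `m!` classes `∏ p_{i, σ(i)}^* e` are linearly dependent for some `m ≤ 3`.

The equivalence of the first two conditions is due to Kimura, Guletskii and Pedrini; the new part is
that an arbitrary linear relation between the permutations suffices, if the number of factors is at
most `2 b + 3`. Idea of the proof: the relations form two-sided ideals `I_m` in the group algebras
of the symmetric groups, and partial traces map `I_m` to `I_(m-1)`. For an element `a` of the first
non-zero ideal all partial traces vanish, so that `a` is an eigenvector of the Jucys–Murphy element
`∑ (i m)`, and of all its conjugates, with eigenvalue `- b`. A positivity argument in the group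
algebra of the symmetric group shows that `a` is antisymmetric if `m < 2 b + 4`.
-/

open Pool.Agent.H914 Pool.Agent.R903

universe u v w

namespace Pool.Agent.Results.MP_7ebcb6_ag.PermutationGraphs

theorem result {k : Type u} [Field k] {𝒱 : VarClass k} {C : ChowTheory.{u, v} 𝒱}
    (W : WeilTheory.{u, v, w} C) (hP : C.Polarized) (X : 𝒱.Obj) (hX : W.AlgebraicCohomology X) :
    List.TFAE [∀ i, W.ClInjective (X.prod X) i,
      C.ExtVanishes (C.diagC X) (Module.finrank W.K (W.H X) + 1),
      ∃ m ≤ 2 * Module.finrank W.K (W.H X) + 3, C.PermDependent (C.diagC X) m,
      ∀ e ∈ C.gr (X.prod X) X.dim, C.comp e e = e → IsZeroMap (W.act e) →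
        ∃ m ≤ 3, C.PermDependent e m] := by
  have h := hX.perm_tfae hP
  have h12 := h.out 0 1
  have h13 := h.out 0 2
  have h5 := (hX.motive_tfae hP).out 0 2
  tfae_have 1 ↔ 2 := h12
  tfae_have 1 ↔ 3 := h13
  tfae_have 1 ↔ 4 := by
    rw [h5]
    constructor
    · intro hn e he hee h0
      rw [hn e he hee h0]
      refine ⟨1, by omega, ChowTheory.permDependent_iff.2 ⟨le_rfl, PermCore.chi 1,
        ChowTheory.chi_ne_zero, fun Y x y => ?_⟩⟩
      refine Finset.sum_eq_zero fun σ _ => ?_
      rw [Fin.prod_univ_one, map_zero, smul_zero]
    · intro hn e he hee h0
      obtain ⟨m, hm, hd⟩ := hn e he hee h0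
      have hcl : W.cl _ e = 0 := WeilTheory.cl_eq_zero_of_isZeroMap h0
      have ht : C.motDim e = 0 := by
        have h3 : ((C.motDim e : ℚ) : W.K) = 0 := by
          rw [ChowTheory.motDim, ← W.tr_cl, W.cl_pull, hcl, map_zero, map_zero]
        exact_mod_cast h3
      have hm' : (m : ℚ) ≤ 2 * C.motDim e + 3 := by
        rw [ht]
        have : (m : ℚ) ≤ 3 := by exact_mod_cast hm
        linarith
      obtain ⟨N, hN, h8⟩ := (ChowTheory.ext_iff (X := X) hP hee).1 ⟨m, hm', hd⟩
      obtain ⟨h9, h10⟩ := ChowTheory.extVanishes_iff.1 h8
      obtain ⟨n, rfl⟩ : ∃ n, N = n + 1 := ⟨N - 1, by omega⟩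
      exact ChowTheory.eq_zero_of_altRel hee ht n h10
  tfae_finish

end Pool.Agent.Results.MP_7ebcb6_ag.PermutationGraphs
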