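import Pool.Agent.R905.BQ.Surf

/-!
# Bloch's conjecture for surfaces with `p_g = q = 0` and quotients of powers

Let `X` be a variety of a class `𝒱` of smooth projective varieties over a field which is closed
under products, with Chow groups `C` (rational coefficients) and a Weil cohomology theory `W`, and
suppose that the cohomology of `X` is spanned by classes of algebraic cycles. The complex surfaces
with this property are those with `p_g = q = 0`. Let `G` be a finite group of automorphisms of `X`
and `m = n + 2 ≥ 2`. The group `G × S_m` acts on the power `X^m`, where `G` acts diagonally.

Theorem. (1) The following are equivalent:

* the cycle class map is injective on the Chow groups of `X × X` (for complex surfaces with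
  `p_g = q = 0` this is Bloch's conjecture for `X`, by Bloch and Srinivas);
* the cycle class map is injective on the Chow groups of all powers of `X`;
* all homologically trivial classes in `CH^(dim X)(X^m)` which are invariant under `G` and `S_m` are
  smash-nilpotent.

(2) If `X` is a surface, and if homologically trivial divisors and homologically trivial `0`-cycles
on surfaces are smash-nilpotent (which is the case over the complex numbers), then these conditions
hold if and only if the sum of the graphs of the elements of `G × S_m` is a linear combination of
correspondences on `X^m` which factor through surfaces and of correspondences which factor with a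
shift of codimensions. By the decomposition of the diagonal of Bloch and Srinivas this means that
`CH_0(X^m / (G × S_m))` is supported on a surface.

So Bloch's conjecture for `X` follows if for one `m ≥ 2` and one finite group `G` of automorphisms
of `X` the zero-cycles of the quotient `X^m / (G × S_m)` are supported on a surface. For `m = 1` the
corresponding statement is empty: the zero-cycles on `X / G` are always supported on a surface.

Idea of the proof: the phantom part `φ` of the diagonal of `X` is an idempotent correspondence, and
up to exterior products it is invariant under all automorphisms and under the transposition, because
the diagonal is. Its symmetrization on `X^m` is an invariant homologically trivial class, and its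
pull-back under `(x, y) ↦ (x, y, …, y)` is a multiple of the diagonal, up to exterior products. If
this class is smash-nilpotent, then it follows that the diagonal is a sum of exterior products.
-/

open Pool.Agent.H914 Pool.Agent.R903 Pool.Agent.R905.BQ

universe u v w

namespace Pool.Agent.Results.MP_7ebcb6_ag.QuotientsOfPowers

theorem result {k : Type u} [Field k] {𝒱 : VarClass k} {C : ChowTheory.{u, v} 𝒱}
    (W : WeilTheory.{u, v, w} C) (X : 𝒱.Obj) (hX : W.AlgebraicCohomology X)
    (G : Subgroup (CategoryTheory.Aut X)) [Fintype G] (n : ℕ) :
    List.TFAE [ClInjectiveAll W (X.prod X), ∀ m, ClInjectiveAll W (pw X m),
      InvariantsNilpotent W G (n + 1)] ∧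
    (C.Polarized → SmallNilpotent W → X.dim = 2 →
      (ClInjectiveAll W (X.prod X) ↔ SupportedOnSurface C (groupSum C G (n + 1)))) :=
  ⟨tfae_main hX G n, fun hP hW hX2 => iff_supported hX hP hW hX2 G n⟩

end Pool.Agent.Results.MP_7ebcb6_ag.QuotientsOfPowers
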