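import Pool.Agent.R903.Exp

/-!
# Bloch's conjecture for surfaces with `p_g = q = 0` and smash-nilpotence in families

Let `X` be a variety of a class `𝒱` of smooth projective varieties over a field which is closed
under products, with Chow groups `C` (rational coefficients) and a Weil cohomology theory `W`. Let
`x s`, `y s` be classes on `X` with `deg (x s · y t) = δ_{s t}` such that the classes of the `x s`
span the cohomology of `X` and `[X]` is a linear combination of the `y s`. The complex surfaces with
such classes are those with `p_g = q = 0`; one may take bases of the space spanned by `[X]`, the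
divisor classes and a point. Let `φ = Δ - ∑ y s × x s`.

For a family `α ∈ CH(Y × X)` of cycles on `X` with parameters in `Y` let `α^(n) ∈ CH(Y × X^n)` be
the family of the exterior powers `α_t × ⋯ × α_t`, `t ∈ Y`. Let `S_r = φ(x_1) + ⋯ + φ(x_r)`, a family
with parameters `(x_1, …, x_r) ∈ X^r`.

Theorem. The following are equivalent:

* the cycle class map is injective on the Chow groups of `X × X` (for complex surfaces with
  `p_g = q = 0` this is Bloch's conjecture for `X`, by Bloch and Srinivas);
* there is an `n` such that `α^(n) = 0` for all `Y` and all families `α ∈ CH(Y × X)` which have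
  intersection zero with the `y s`;
* `S_n^(n) = 0` for some `n`;
* `S_r^(n) = 0` for some `r ≥ n`.

Moreover, if `S_1^(e) = 0` then `S_r^(n) = 0` for all `n > r (e - 1)`, by the pigeonhole principle.

By a theorem of Voevodsky and Voisin zero-cycles of degree zero are smash-nilpotent, and exponents
`n` for the sums of `r` points which grow linearly in `r` are to be expected for all surfaces (the
case `e = 2` is the relation of Beauville and Voisin for K3 surfaces, and gives `S_r^(r + 1) = 0`);
Bloch's conjecture is equivalent to one exponent `n ≤ r`. Idea of the proof: applying `φ` to the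
parameters `x_1, …, x_n` of the relation `S_n^(n) = 0` one obtains that the symmetrization of
`φ × ⋯ × φ` is zero, and `φ` is idempotent of dimension zero, so that partial traces give `φ = 0`.
-/

open Pool.Agent.H914 Pool.Agent.R903

universe u v w

namespace Pool.Agent.Results.MP_7ebcb6_ag.SmashExponents

theorem result {k : Type u} [Field k] {𝒱 : VarClass k} {C : ChowTheory.{u, v} 𝒱}
    (W : WeilTheory.{u, v, w} C) (X : 𝒱.Obj) (q : ℕ) (x y : Fin q → C.CH X)
    (h : W.IsDualSystem x y) :
    List.TFAE [∀ i, W.ClInjective (X.prod X) i,
      ∃ n, C.UniformlyNilpotent y n,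
      ∃ n, C.SumPowerVanishes (C.residual x y) n n,
      ∃ r n, n ≤ r ∧ C.SumPowerVanishes (C.residual x y) r n] ∧
    ∀ e r n, 1 ≤ r → r * (e - 1) < n → C.SumPowerVanishes (C.residual x y) 1 e →
      C.SumPowerVanishes (C.residual x y) r n := by
  refine ⟨h.tfae, fun e r n hr hn he => ?_⟩
  obtain ⟨-, h1, h2⟩ := ChowTheory.sumPowerVanishes_iff.1 he
  exact ChowTheory.sumPowerVanishes_iff.2 ⟨hr, by omega, h2.of_one hn⟩

end Pool.Agent.Results.MP_7ebcb6_ag.SmashExponents
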