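import Pool.Agent.R903.Taut

/-!
# Bloch's conjecture for surfaces with `p_g = q = 0` and tautological rings of powers

Let `X` be a variety of a class `𝒱` of smooth projective varieties over a field which is closed
under products, with Chow groups `C` (rational coefficients) and a Weil cohomology theory `W`, and
suppose that the cohomology of `X` is spanned by classes of algebraic cycles; let `b` be its
dimension. The complex surfaces with this property are those with `p_g = q = 0`.

Let `V ⊆ CH(X)` be a complement of the space of the numerically trivial classes, for example the
space spanned by `[X]`, by all divisor classes and by a point, if `X` is such a surface. The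
tautological ring `R_N ⊆ CH(X^N)` is the `ℚ`-subalgebra generated by the pull-backs of the elements
of `V` under the `N` projections and by the diagonals `p_{ij}^* Δ`, `i ≠ j`.

Theorem. The following are equivalent:

* the cycle class map is injective on the Chow groups of `X × X` (for complex surfaces with
  `p_g = q = 0` this is Bloch's conjecture for `X`, by Bloch and Srinivas);
* `dim R_N = b ^ N` for all `N`;
* the cycle class map is injective on `R_N` for all `N`;
* `dim R_{2m} < (b ^ 2 + 1) ^ m` for some `m ≥ 1`.

So if Bloch's conjecture fails for `X`, then `dim R_{2m} ≥ (b ^ 2 + 1) ^ m` for all `m`, instead of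
`b ^ {2m}`, and one inequality `dim R_{2m} < (b ^ 2 + 1) ^ m`, or sufficiently many linear relations
between tautological classes on one power of `X`, implies Bloch's conjecture. Idea of the proof: the
diagonal is the sum of the products of dual classes in `V` and of an idempotent correspondence `φ`
which is numerically trivial; Bloch's conjecture is equivalent to `φ = 0`. If `φ ≠ 0` then `φ` is not
smash-nilpotent, because it is an idempotent, and the `(b ^ 2 + 1) ^ m` exterior products on
`(X × X)^m` of copies of `φ` and of the classes `v_s × v_t` (`v_1, …, v_b` a basis of `V`) are
linearly independent: contractions with the dual classes kill `φ`.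
-/

open Pool.Agent.H914 Pool.Agent.R903

universe u v w

namespace Pool.Agent.Results.MP_7ebcb6_ag.TautologicalRings

theorem result {k : Type u} [Field k] {𝒱 : VarClass k} {C : ChowTheory.{u, v} 𝒱}
    (W : WeilTheory.{u, v, w} C) (X : 𝒱.Obj) (hX : W.AlgebraicCohomology X)
    (V : Submodule ℚ (C.CH X)) (hV : C.IsLift V) :
    List.TFAE [∀ i, W.ClInjective (X.prod X) i,
      ∀ n, C.tautRank V n = ((Module.finrank W.K (W.H X) ^ (n + 1) : ℕ) : Cardinal),
      ∀ n, W.InjectiveOnTaut V n,
      ∃ r, C.tautRank V (2 * r + 1) <
        (((Module.finrank W.K (W.H X) ^ 2 + 1) ^ (r + 1) : ℕ) : Cardinal)] :=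
  hX.taut_tfae hV

end Pool.Agent.Results.MP_7ebcb6_ag.TautologicalRings
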